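import Mathlib

/-!
Averages over rotational involutions of a Euclidean space of dimension at least four. (helper862)
-/

set_option autoImplicit false
set_option maxHeartbeats 4000000

open MeasureTheory Set Metric
open scoped Quaternion ENNReal

namespace Pool.Agent.N862.RI

/-- Borel sets of quaternions -/
noncomputable instance qms : MeasurableSpace ℍ := borel ℍ

instance qbs : BorelSpace ℍ := ⟨rfl⟩

/-- the unit `i` -/
def qi : ℍ := ⟨0, 1, 0, 0⟩

/-- the unit `j` -/
def qj : ℍ := ⟨0, 0, 1, 0⟩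

theorem qi_sq : qi * qi = -1 := by
  apply Quaternion.ext <;>
    simp only [Quaternion.re_mul, Quaternion.imI_mul, Quaternion.imJ_mul, Quaternion.imK_mul] <;>
    simp [qi]

theorem qj_sq : qj * qj = -1 := by
  apply Quaternion.ext <;>
    simp only [Quaternion.re_mul, Quaternion.imI_mul, Quaternion.imJ_mul, Quaternion.imK_mul] <;>
    simp [qj]

theorem qji : qj * qi = - (qi * qj) := by
  apply Quaternion.ext <;>
    simp only [Quaternion.re_neg, Quaternion.imI_neg, Quaternion.imJ_neg, Quaternion.imK_neg,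
      Quaternion.re_mul, Quaternion.imI_mul, Quaternion.imJ_mul, Quaternion.imK_mul] <;>
    simp [qi, qj]

theorem norm_of_sq {u : ℍ} (h : u * u = -1) : ‖u‖ = 1 := by
  have h1 : ‖u‖ * ‖u‖ = 1 := by rw [← norm_mul, h, norm_neg, norm_one]
  nlinarith [norm_nonneg u]

/-- the imaginary unit attached to a non-zero quaternion -/
noncomputable def au (p : ℍ) : ℍ := p * qi * p⁻¹

theorem au_sq {p : ℍ} (hp : p ≠ 0) : au p * au p = -1 := by
  unfold au
  rw [show p * qi * p⁻¹ * (p * qi * p⁻¹) = p * qi * (p⁻¹ * p) * qi * p⁻¹ by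
    simp only [mul_assoc], inv_mul_cancel₀ hp, mul_one, mul_assoc p, qi_sq, mul_neg, mul_one,
    neg_mul, mul_inv_cancel₀ hp]

theorem au_mul {v p : ℍ} : au (v * p) = v * au p * v⁻¹ := by
  unfold au
  rw [mul_inv_rev]
  simp only [mul_assoc]

theorem au_smul {c : ℝ} (hc : c ≠ 0) (p : ℍ) : au (c • p) = au p := by
  unfold au
  rw [smul_mul_assoc, smul_mul_assoc, smul_inv₀ c p, mul_smul_comm, smul_smul,
    mul_inv_cancel₀ hc, one_smul]

theorem au_j (p : ℍ) : au (p * qj) = - au p := by
  unfold au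
  have hj : qj ≠ 0 := by
    intro h
    have := qj_sq
    rw [h] at this
    simp at this
  have h1 : qj⁻¹ = -qj := by
    rw [inv_eq_iff_eq_inv, eq_comm, inv_eq_iff_eq_inv]
    apply eq_inv_of_mul_eq_one_left
    rw [neg_mul, qj_sq, neg_neg]
  rw [mul_inv_rev, h1, show p * qj * qi * (-qj * p⁻¹) = -(p * (qj * qi) * qj * p⁻¹) by
    simp only [mul_assoc, mul_neg, neg_mul], qji,
    show p * -(qi * qj) * qj * p⁻¹ = -(p * qi * (qj * qj) * p⁻¹) by
      simp only [mul_assoc, mul_neg, neg_mul], qj_sq]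
  simp

/-- left multiplication as an isometry -/
noncomputable def lq (u : ℍ) (hu : ‖u‖ = 1) : ℍ ≃ₗᵢ[ℝ] ℍ :=
  LinearIsometry.toLinearIsometryEquiv
    { toLinearMap := LinearMap.mulLeft ℝ u
      norm_map' := by intro x; simp [hu] } rfl

/-- right multiplication as an isometry -/
noncomputable def rq (u : ℍ) (hu : ‖u‖ = 1) : ℍ ≃ₗᵢ[ℝ] ℍ :=
  LinearIsometry.toLinearIsometryEquiv
    { toLinearMap := LinearMap.mulRight ℝ u
      norm_map' := by intro x; simp [hu] } rfl

theorem lq_apply (u : ℍ) (hu : ‖u‖ = 1) (x : ℍ) : lq u hu x = u * x := rfl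

theorem rq_apply (u : ℍ) (hu : ‖u‖ = 1) (x : ℍ) : rq u hu x = x * u := rfl

/-- the uniform probability measure on the unit ball of the quaternions -/
noncomputable def rho : Measure ℍ := (volume (ball (0 : ℍ) 1))⁻¹ • volume.restrict (ball (0 : ℍ) 1)

theorem ball_pos : volume (ball (0 : ℍ) 1) ≠ 0 := (measure_ball_pos volume _ one_pos).ne'

theorem ball_fin : volume (ball (0 : ℍ) 1) ≠ ⊤ := measure_ball_lt_top.ne

instance : IsProbabilityMeasure rho := by
  constructor
  unfold rho
  rw [Measure.smul_apply, Measure.restrict_apply_univ, smul_eq_mul,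
    ENNReal.inv_mul_cancel ball_pos ball_fin]

theorem mp_iso {V : Type*} [NormedAddCommGroup V] [InnerProductSpace ℝ V] [FiniteDimensional ℝ V]
    [MeasurableSpace V] [BorelSpace V] (e : V ≃ₗᵢ[ℝ] V) :
    MeasurePreserving e (volume.restrict (ball (0 : V) 1)) (volume.restrict (ball (0 : V) 1)) := by
  have h := e.measurePreserving.restrict_preimage (s := ball (0 : V) 1) measurableSet_ball
  have h2 : e ⁻¹' ball (0 : V) 1 = ball 0 1 := by
    ext x
    simp
  rwa [h2] at h

theorem mp_rho (e : ℍ ≃ₗᵢ[ℝ] ℍ) : MeasurePreserving e rho rho := by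
  unfold rho
  exact (mp_iso e).smul_measure _

theorem rho_zero : rho {0} = 0 := by
  unfold rho
  simp

variable {m : ℕ}

/-- the space `ℝ^{4+m}` -/
abbrev HH (m : ℕ) := WithLp 2 (ℍ × EuclideanSpace ℝ (Fin m))

/-- multiplication from the left and from the right on the first factor -/
noncomputable def lrmap (u v : ℍ) : HH m →ₗ[ℝ] HH m where
  toFun x := WithLp.toLp 2 (u * x.fst * v, x.snd)
  map_add' x y := by
    apply (WithLp.ofLp_injective 2)
    simp [mul_add, add_mul]
  map_smul' c x := by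
    apply (WithLp.ofLp_injective 2)
    simp

theorem lrmap_fst (u v : ℍ) (x : HH m) : (lrmap u v x).fst = u * x.fst * v := rfl

theorem lrmap_snd (u v : ℍ) (x : HH m) : (lrmap u v x).snd = x.snd := rfl

theorem hh_ext {x y : HH m} (h1 : x.fst = y.fst) (h2 : x.snd = y.snd) : x = y := by
  apply (WithLp.ofLp_injective 2)
  exact Prod.ext h1 h2

/-- as an isometry -/
noncomputable def lr (u v : ℍ) (hu : ‖u‖ = 1) (hv : ‖v‖ = 1) : HH m ≃ₗᵢ[ℝ] HH m :=
  LinearIsometry.toLinearIsometryEquiv
    { toLinearMap := lrmap u v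
      norm_map' := by
        intro x
        rw [← sq_eq_sq₀ (norm_nonneg _) (norm_nonneg _), WithLp.prod_norm_sq_eq_of_L2,
          WithLp.prod_norm_sq_eq_of_L2, lrmap_fst, lrmap_snd, norm_mul, norm_mul, hu, hv, one_mul,
          mul_one] } rfl

theorem lr_apply (u v : ℍ) (hu : ‖u‖ = 1) (hv : ‖v‖ = 1) (x : HH m) :
    lr u v hu hv x = lrmap u v x := rfl

theorem lrmap_comp (u v u' v' : ℍ) (x : HH m) :
    lrmap u v (lrmap u' v' x) = lrmap (u * u') (v' * v) x := by
  apply hh_ext
  · simp only [lrmap_fst, mul_assoc]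
  · rfl

theorem lrmap_one (x : HH m) : lrmap 1 1 x = x := by
  apply hh_ext
  · simp only [lrmap_fst, one_mul, mul_one]
  · rfl

end Pool.Agent.N862.RI
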