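import Pool.Agent.N862.RI.A

/-!
The average of `f x * f (s x)` over rotational involutions `s` is a square. (helper862)
-/

set_option autoImplicit false
set_option maxHeartbeats 400000

open MeasureTheory Set Metric
open scoped Quaternion ENNReal

namespace Pool.Agent.N862.RI

variable {m : ℕ}

theorem measurable_au : Measurable au := by
  unfold au
  fun_prop

theorem measurable_act : Measurable fun t : ℍ × ℍ × HH m => lrmap t.1 t.2.1 t.2.2 := by
  apply Continuous.measurable
  have h1 : Continuous fun t : ℍ × ℍ × HH m => (t.1 * t.2.2.fst * t.2.1, t.2.2.snd) := by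
    have a1 : Continuous fun t : ℍ × ℍ × HH m => t.2.2.fst :=
      (WithLp.continuous_fst _ _ _).comp (continuous_snd.comp continuous_snd)
    have a2 : Continuous fun t : ℍ × ℍ × HH m => t.2.2.snd :=
      (WithLp.continuous_snd _ _ _).comp (continuous_snd.comp continuous_snd)
    fun_prop
  exact (WithLp.prod_continuous_toLp 2 _ _).comp h1

theorem meas1 {X : Type*} [MeasurableSpace X] {u v : X → ℍ}
    {z : X → HH m} (hu : Measurable u) (hv : Measurable v) (hz : Measurable z) :
    Measurable fun x => lrmap (u x) (v x) (z x) := by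
  have h : Measurable fun x => (u x, v x, z x) := hu.prodMk (hv.prodMk hz)
  have h2 := (measurable_act (m := m)).comp h
  exact h2

theorem meas2 {f : HH m → ℝ≥0∞} (hf : Measurable f) {X : Type*} [MeasurableSpace X] {u v : X → ℍ}
    {z : X → HH m} (hu : Measurable u) (hv : Measurable v) (hz : Measurable z) :
    Measurable fun x => f (lrmap (u x) (v x) (z x)) := by
  have h := meas1 hu hv hz
  exact Measurable.comp hf h

/-- restricted volume -/
noncomputable def vb (m : ℕ) : Measure (HH m) := volume.restrict (ball (0 : HH m) 1)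

instance : IsFiniteMeasure (vb m) := by
  unfold vb
  exact ⟨by rw [Measure.restrict_apply_univ]; exact measure_ball_lt_top⟩

theorem norm_au {p : ℍ} (hp : p ≠ 0) : ‖au p‖ = 1 := norm_of_sq (au_sq hp)

/-- the right multiplication by a random imaginary unit is a left multiplication -/
theorem right_left {g : ℍ → ℝ≥0∞} (hg : Measurable g) (ξ : ℍ) (hξ : ξ ≠ 0) :
    ∫⁻ q, g (au (ξ * q)) ∂rho = ∫⁻ q, g (au q) ∂rho := by
  have hn : ‖ξ‖ ≠ 0 := norm_ne_zero_iff.2 hξ
  have hu : ‖‖ξ‖⁻¹ • ξ‖ = 1 := by
    rw [norm_smul, norm_inv, norm_norm, inv_mul_cancel₀ hn]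
  have h1 : ∀ q, au (ξ * q) = au (lq (‖ξ‖⁻¹ • ξ) hu q) := by
    intro q
    rw [lq_apply, smul_mul_assoc, au_smul (inv_ne_zero hn)]
  simp only [h1]
  exact (mp_rho (lq (‖ξ‖⁻¹ • ξ) hu)).lintegral_comp (f := fun q => g (au q))
    (hg.comp measurable_au)

theorem step_one {f : HH m → ℝ≥0∞} (hf : Measurable f) (u : ℍ) (x : HH m) :
    ∫⁻ q, f (lrmap u (au q) x) ∂rho = ∫⁻ q, f (lrmap (u * au q) 1 x) ∂rho := by
  by_cases hξ : x.fst = 0
  · have : ∀ q, lrmap u (au q) x = lrmap (u * au q) 1 x := by
      intro q
      apply hh_ext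
      · simp only [lrmap_fst, hξ, mul_zero, zero_mul]
      · rfl
    simp only [this]
  · have h1 : ∀ q, lrmap u (au q) x = lrmap (u * au (x.fst * q)) 1 x := by
      intro q
      apply hh_ext
      · simp only [lrmap_fst, mul_one]
        rw [au_mul]
        simp only [mul_assoc]
        rw [inv_mul_cancel₀ hξ, mul_one]
      · rfl
    simp only [h1]
    exact right_left (g := fun w => f (lrmap (u * w) 1 x))
      (meas2 hf (by fun_prop) measurable_const measurable_const) x.fst hξ

theorem step_neg {f : HH m → ℝ≥0∞} (hf : Measurable f) (x : HH m) :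
    ∫⁻ q, f (lrmap (-au q) 1 x) ∂rho = ∫⁻ q, f (lrmap (au q) 1 x) ∂rho := by
  have h1 : ∀ q, -au q = au (rq qj (norm_of_sq qj_sq) q) := by
    intro q
    rw [rq_apply, au_j]
  simp only [h1]
  exact (mp_rho (rq qj (norm_of_sq qj_sq))).lintegral_comp
    (f := fun q => f (lrmap (au q) 1 x)) (meas2 hf measurable_au measurable_const measurable_const)

theorem step_two {f : HH m → ℝ≥0∞} (hf : Measurable f) (p : ℍ) {q : ℍ} (hq : q ≠ 0) :
    ∫⁻ x, f x * f (lrmap (au p * au q) 1 x) ∂(vb m) =
      ∫⁻ x, f (lrmap (-au q) 1 x) * f (lrmap (au p) 1 x) ∂(vb m) := by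
  have hn : ‖-au q‖ = 1 := by rw [norm_neg, norm_au hq]
  have h := (mp_iso (lr (m := m) (-au q) 1 hn norm_one)).lintegral_comp
    (f := fun x => f x * f (lrmap (au p * au q) 1 x))
    (hf.mul (meas2 hf measurable_const measurable_const measurable_id))
  unfold vb
  rw [← h]
  apply lintegral_congr
  intro x
  simp only [lr_apply]
  rw [lrmap_comp, show au p * au q * -au q = au p by
    rw [mul_neg, mul_assoc, au_sq hq, mul_neg, mul_one, neg_neg], mul_one]

/-- the average over rotational involutions is a square -/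
theorem average {f : HH m → ℝ≥0∞} (hf : Measurable f) :
    ∫⁻ p, ∫⁻ q, ∫⁻ x, f x * f (lrmap (au p) (au q) x) ∂(vb m) ∂rho ∂rho =
      ∫⁻ x, (∫⁻ p, f (lrmap (au p) 1 x) ∂rho) ^ 2 ∂(vb m) := by
  have e1 : ∀ p, ∫⁻ q, ∫⁻ x, f x * f (lrmap (au p) (au q) x) ∂(vb m) ∂rho =
      ∫⁻ x, f x * ∫⁻ q, f (lrmap (au p) (au q) x) ∂rho ∂(vb m) := by
    intro p
    rw [lintegral_lintegral_swap]
    · apply lintegral_congr
      intro x
      rw [lintegral_const_mul _ (meas2 hf measurable_const measurable_au measurable_const)]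
    · apply Measurable.aemeasurable
      exact (hf.comp measurable_snd).mul
        (meas2 hf measurable_const (measurable_au.comp measurable_fst) measurable_snd)
  have e2 : ∀ p, ∫⁻ q, ∫⁻ x, f x * f (lrmap (au p * au q) 1 x) ∂(vb m) ∂rho =
      ∫⁻ x, f x * ∫⁻ q, f (lrmap (au p * au q) 1 x) ∂rho ∂(vb m) := by
    intro p
    rw [lintegral_lintegral_swap]
    · apply lintegral_congr
      intro x
      rw [lintegral_const_mul _ (meas2 hf (measurable_au.const_mul _) measurable_const
        measurable_const)]
    · apply Measurable.aemeasurable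
      exact (hf.comp measurable_snd).mul
        (meas2 hf ((measurable_au.comp measurable_fst).const_mul _) measurable_const measurable_snd)
  have hz : ∀ᵐ q ∂rho, q ≠ 0 := by
    rw [ae_iff]
    simpa using rho_zero
  have e3 : ∀ p, ∫⁻ q, ∫⁻ x, f x * f (lrmap (au p) (au q) x) ∂(vb m) ∂rho =
      ∫⁻ x, (∫⁻ q, f (lrmap (au q) 1 x) ∂rho) * f (lrmap (au p) 1 x) ∂(vb m) := by
    intro p
    rw [e1]
    simp only [step_one hf]
    rw [← e2]
    calc ∫⁻ q, ∫⁻ x, f x * f (lrmap (au p * au q) 1 x) ∂(vb m) ∂rho
        = ∫⁻ q, ∫⁻ x, f (lrmap (-au q) 1 x) * f (lrmap (au p) 1 x) ∂(vb m) ∂rho := by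
          apply lintegral_congr_ae
          filter_upwards [hz] with q hq
          exact step_two hf p hq
      _ = ∫⁻ x, ∫⁻ q, f (lrmap (-au q) 1 x) * f (lrmap (au p) 1 x) ∂rho ∂(vb m) := by
          rw [lintegral_lintegral_swap]
          apply Measurable.aemeasurable
          exact (meas2 hf (measurable_au.comp measurable_fst).neg measurable_const
            measurable_snd).mul (meas2 hf measurable_const measurable_const measurable_snd)
      _ = _ := by
          apply lintegral_congr
          intro x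
          have h6 : Measurable fun q => f (lrmap (-au q) 1 x) :=
            meas2 hf (u := fun q => -au q) measurable_au.neg measurable_const measurable_const
          rw [lintegral_mul_const _ h6, step_neg hf]
  simp only [e3]
  rw [lintegral_lintegral_swap]
  · apply lintegral_congr
    intro x
    rw [lintegral_const_mul _ (meas2 hf measurable_au measurable_const measurable_const), sq]
  · apply Measurable.aemeasurable
    have h5 : Measurable fun x : HH m => ∫⁻ q, f (lrmap (au q) 1 x) ∂rho := by
      apply Measurable.lintegral_prod_right'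
        (f := fun t : HH m × ℍ => f (lrmap (au t.2) 1 t.1))
      exact meas2 hf (measurable_au.comp measurable_snd) measurable_const measurable_fst
    exact (h5.comp measurable_snd).mul
      (meas2 hf (measurable_au.comp measurable_fst) measurable_const measurable_snd)

theorem mass {f : HH m → ℝ≥0∞} (hf : Measurable f) :
    ∫⁻ x, ∫⁻ p, f (lrmap (au p) 1 x) ∂rho ∂(vb m) = ∫⁻ x, f x ∂(vb m) := by
  have hz : ∀ᵐ q ∂rho, q ≠ 0 := by
    rw [ae_iff]
    simpa using rho_zero
  rw [lintegral_lintegral_swap]
  · calc ∫⁻ p, ∫⁻ x, f (lrmap (au p) 1 x) ∂(vb m) ∂rho = ∫⁻ _, ∫⁻ x, f x ∂(vb m) ∂rho := by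
          apply lintegral_congr_ae
          filter_upwards [hz] with q hq
          exact (mp_iso (lr (m := m) (au q) 1 (norm_au hq) norm_one)).lintegral_comp (f := f) hf
      _ = _ := by simp
  · apply Measurable.aemeasurable
    exact meas2 hf (measurable_au.comp measurable_snd) measurable_const measurable_fst

end Pool.Agent.N862.RI
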