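import Pool.Agent.N862.RI.B

/-!
Existence of a good rotational involution. (helper862)
-/

set_option autoImplicit false
set_option maxHeartbeats 400000

open MeasureTheory Set Metric
open scoped Quaternion ENNReal

namespace Pool.Agent.N862.RI

variable {m : ℕ}

/-- Cauchy-Schwarz against the constant one -/
theorem cs {X : Type*} [MeasurableSpace X] (μ : Measure X) {g : X → ℝ≥0∞} (hg : AEMeasurable g μ) :
    (∫⁻ x, g x ∂μ) ^ 2 ≤ μ univ * ∫⁻ x, g x ^ 2 ∂μ := by
  have h := ENNReal.lintegral_mul_le_Lp_mul_Lq μ Real.HolderConjugate.two_two hg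
    (aemeasurable_const (b := (1 : ℝ≥0∞)))
  simp only [Pi.mul_apply, mul_one, ENNReal.one_rpow, lintegral_const, one_mul] at h
  calc (∫⁻ x, g x ∂μ) ^ 2 ≤ ((∫⁻ x, g x ^ (2 : ℝ) ∂μ) ^ (1 / 2 : ℝ) * μ univ ^ (1 / 2 : ℝ)) ^ 2 := by
        gcongr
    _ = μ univ * ∫⁻ x, g x ^ 2 ∂μ := by
        rw [mul_pow, ← ENNReal.rpow_natCast, ← ENNReal.rpow_natCast, ← ENNReal.rpow_mul,
          ← ENNReal.rpow_mul]
        norm_num
        rw [mul_comm]

theorem lower {f : HH m → ℝ≥0∞} (hf : Measurable f) :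
    (∫⁻ x, f x ∂(vb m)) ^ 2 ≤ vb m univ *
      ∫⁻ p, ∫⁻ q, ∫⁻ x, f x * f (lrmap (au p) (au q) x) ∂(vb m) ∂rho ∂rho := by
  rw [average hf, ← mass hf]
  apply cs
  apply Measurable.aemeasurable
  apply Measurable.lintegral_prod_right' (f := fun t : HH m × ℍ => f (lrmap (au t.2) 1 t.1))
  exact meas2 hf (measurable_au.comp measurable_snd) measurable_const measurable_fst

theorem vb_ne_zero : vb m univ ≠ 0 := by
  unfold vb
  rw [Measure.restrict_apply_univ]
  exact (measure_ball_pos volume _ one_pos).ne'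

/-- for every coloring of the space some rotational involution preserves much -/
theorem exists_invol {r : ℕ} (hr : 0 < r) (k : HH m → Fin r) (hk : Measurable k) :
    ∃ p q : ℍ, p ≠ 0 ∧ q ≠ 0 ∧ ∃ i : Fin r, vb m univ / (r : ℝ≥0∞) ^ 2 ≤
      vb m {x | k x = i ∧ k (lrmap (au p) (au q) x) = i} := by
  have hms : ∀ i, MeasurableSet (k ⁻¹' {i}) := fun i => hk (measurableSet_singleton i)
  have hr0 : (r : ℝ≥0∞) ≠ 0 := by exact_mod_cast hr.ne'
  have hrt : (r : ℝ≥0∞) ≠ ⊤ := ENNReal.natCast_ne_top r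
  have hM0 := vb_ne_zero (m := m)
  have hMt : vb m univ ≠ ⊤ := measure_ne_top _ _
  haveI : Nonempty (Fin r) := ⟨⟨0, hr⟩⟩
  have hsum : ∑ i, vb m (k ⁻¹' {i}) = vb m univ := by
    rw [← measure_biUnion_finset]
    · congr 1
      ext x
      simp
    · intro i _ j _ hij
      rw [Function.onFun, disjoint_left]
      intro x hx hx'
      exact hij (hx.symm.trans hx')
    · exact fun i _ => hms i
  obtain ⟨i, hi⟩ : ∃ i, vb m univ / r ≤ vb m (k ⁻¹' {i}) := by
    by_contra hno
    push Not at hno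
    have h1 := ENNReal.sum_lt_sum_of_nonempty (s := Finset.univ) Finset.univ_nonempty
      (fun i _ => hno i)
    rw [hsum, Finset.sum_const, Finset.card_univ, Fintype.card_fin, nsmul_eq_mul,
      ENNReal.mul_div_cancel hr0 hrt] at h1
    exact lt_irrefl _ h1
  obtain ⟨f, hfd⟩ : ∃ f : HH m → ℝ≥0∞, f = (k ⁻¹' {i}).indicator 1 := ⟨_, rfl⟩
  have hf : Measurable f := by
    rw [hfd]
    exact measurable_one.indicator (hms i)
  have hint : ∫⁻ x, f x ∂(vb m) = vb m (k ⁻¹' {i}) := by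
    rw [hfd]
    exact lintegral_indicator_one (hms i)
  have hlow := lower hf
  rw [hint] at hlow
  have hG : ∀ p q, ∫⁻ x, f x * f (lrmap (au p) (au q) x) ∂(vb m) =
      vb m {x | k x = i ∧ k (lrmap (au p) (au q) x) = i} := by
    intro p q
    have hS : MeasurableSet {x | k x = i ∧ k (lrmap (au p) (au q) x) = i} := by
      apply MeasurableSet.inter (hms i)
      have h2 : Measurable fun x : HH m => k (lrmap (au p) (au q) x) :=
        hk.comp (meas1 measurable_const measurable_const measurable_id)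
      exact h2 (measurableSet_singleton i)
    rw [← lintegral_indicator_one hS]
    apply lintegral_congr
    intro x
    rw [hfd]
    by_cases a : k x = i <;> by_cases b : k (lrmap (au p) (au q) x) = i <;>
      simp [indicator, a, b]
  simp only [hG] at hlow
  obtain ⟨I, hI⟩ : ∃ I, I = ∫⁻ p, ∫⁻ q, vb m {x | k x = i ∧ k (lrmap (au p) (au q) x) = i} ∂rho
    ∂rho := ⟨_, rfl⟩
  rw [← hI] at hlow
  have hle : ∀ p, ∫⁻ q, vb m {x | k x = i ∧ k (lrmap (au p) (au q) x) = i} ∂rho ≤ vb m univ := by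
    intro p
    calc _ ≤ ∫⁻ _, vb m univ ∂rho := lintegral_mono fun q => measure_mono (subset_univ _)
      _ = vb m univ := by simp
  have hIt : I ≠ ⊤ := by
    rw [hI]
    apply ne_top_of_le_ne_top hMt
    calc _ ≤ ∫⁻ _, vb m univ ∂rho := lintegral_mono fun p => hle p
      _ = vb m univ := by simp
  have hI2 : vb m univ / (r : ℝ≥0∞) ^ 2 ≤ I := by
    have h3 : (vb m univ / r) ^ 2 ≤ vb m univ * I := (pow_le_pow_left' hi 2).trans hlow
    have h4 : vb m univ * (vb m univ / (r : ℝ≥0∞) ^ 2) = (vb m univ / r) ^ 2 := by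
      rw [div_eq_mul_inv, div_eq_mul_inv, mul_pow, ENNReal.inv_pow, sq (vb m univ), mul_assoc]
    rw [← h4] at h3
    exact (ENNReal.mul_le_mul_iff_right hM0 hMt).1 h3
  obtain ⟨p, hp, h5⟩ := exists_notMem_null_lintegral_le (μ := rho)
    (f := fun p => ∫⁻ q, vb m {x | k x = i ∧ k (lrmap (au p) (au q) x) = i} ∂rho)
    (by rw [← hI]; exact hIt) rho_zero
  obtain ⟨q, hq, h6⟩ := exists_notMem_null_lintegral_le (μ := rho)
    (f := fun q => vb m {x | k x = i ∧ k (lrmap (au p) (au q) x) = i})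
    (ne_top_of_le_ne_top hMt (hle p)) rho_zero
  rw [← hI] at h5
  exact ⟨p, q, hp, hq, i, hI2.trans (h5.trans h6)⟩

end Pool.Agent.N862.RI
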