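import Pool.Agent.N862.RI.B

/-!
The rotational involutions: determinant one, not the identity. (helper862)
-/

set_option autoImplicit false
set_option maxHeartbeats 400000

open MeasureTheory Set Metric
open scoped Quaternion ENNReal

namespace Pool.Agent.N862.RI

variable {m : ℕ}

theorem det_one_of {T S : HH m →ₗ[ℝ] HH m} (h1 : S ∘ₗ S = T) (h2 : T ∘ₗ T ∘ₗ T ∘ₗ T = LinearMap.id) :
    LinearMap.det T = 1 := by
  have e1 : LinearMap.det T = LinearMap.det S ^ 2 := by
    rw [← h1, LinearMap.det_comp, sq]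
  have e2 : LinearMap.det T ^ 4 = 1 := by
    have := congrArg LinearMap.det h2
    rw [LinearMap.det_comp, LinearMap.det_comp, LinearMap.det_comp, LinearMap.det_id] at this
    rw [← this]; ring
  have e3 : 0 ≤ LinearMap.det T := by rw [e1]; positivity
  exact (pow_eq_one_iff_of_nonneg e3 (by norm_num)).1 e2

theorem sqrt_unit {a : ℍ} (ha : a * a = -1) : ∃ w : ℍ, w * w = a := by
  refine ⟨(√2)⁻¹ • (1 + a), ?_⟩
  rw [smul_mul_smul_comm, ← mul_inv, Real.mul_self_sqrt (by norm_num),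
    show (1 + a) * (1 + a) = 1 + a + (a + a * a) by rw [mul_add, add_mul, mul_one]; simp [add_mul],
    ha, show (1 : ℍ) + a + (a + -1) = (2 : ℝ) • a by rw [two_smul]; abel, smul_smul]
  norm_num

theorem det_left {a : ℍ} (ha : a * a = -1) : LinearMap.det (lrmap (m := m) a 1) = 1 := by
  obtain ⟨w, hw⟩ := sqrt_unit ha
  apply det_one_of (S := lrmap w 1)
  · ext1 x
    rw [LinearMap.comp_apply, lrmap_comp, hw, mul_one]
  · ext1 x
    simp only [LinearMap.comp_apply, lrmap_comp, mul_one]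
    rw [show a * (a * (a * a)) = 1 by rw [ha]; simp [ha], lrmap_one]
    rfl

theorem det_right {a : ℍ} (ha : a * a = -1) : LinearMap.det (lrmap (m := m) 1 a) = 1 := by
  obtain ⟨w, hw⟩ := sqrt_unit ha
  apply det_one_of (S := lrmap 1 w)
  · ext1 x
    rw [LinearMap.comp_apply, lrmap_comp, hw, mul_one]
  · ext1 x
    simp only [LinearMap.comp_apply, lrmap_comp, mul_one]
    rw [show a * a * a * a = 1 by rw [ha, mul_assoc, ha]; simp, lrmap_one]
    rfl

theorem det_lr {a b : ℍ} (ha : a * a = -1) (hb : b * b = -1) :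
    LinearMap.det (lrmap (m := m) a b) = 1 := by
  have h : lrmap (m := m) a b = lrmap a 1 ∘ₗ lrmap 1 b := by
    ext1 x
    rw [LinearMap.comp_apply, lrmap_comp, mul_one, mul_one]
  rw [h, LinearMap.det_comp, det_left ha, det_right hb, mul_one]

theorem invol {a b : ℍ} (ha : a * a = -1) (hb : b * b = -1) (x : HH m) :
    lrmap a b (lrmap a b x) = x := by
  rw [lrmap_comp, ha, hb]
  apply hh_ext
  · simp [lrmap_fst]
  · rfl

theorem ne_refl {p : ℍ} (hp : p ≠ 0) {b : ℍ} (h : ∀ x : HH m, lrmap (au p) b x = x) : False := by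
  have h1 : ∀ ξ : ℍ, au p * ξ * b = ξ := by
    intro ξ
    have := congrArg WithLp.fst (h (WithLp.toLp 2 (ξ, 0)))
    exact this
  have h2 := h1 1
  rw [mul_one] at h2
  have hb : b = - au p := by
    have h3 : au p * (au p * b) = au p := by rw [h2, mul_one]
    rw [← mul_assoc, au_sq hp, neg_mul, one_mul] at h3
    rw [← h3, neg_neg]
  have h4 : ∀ ξ : ℍ, au p * ξ = ξ * au p := by
    intro ξ
    have h5 := h1 ξ
    have h6 : au p * ξ * b * au p = ξ * au p := by rw [h5]
    rw [hb, mul_assoc, neg_mul, au_sq hp, neg_neg, mul_one] at h6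
    exact h6
  have h7 := h4 (p * qj * p⁻¹)
  unfold au at h7
  have h8 : p * qi * p⁻¹ * (p * qj * p⁻¹) = p * (qi * qj) * p⁻¹ := by
    rw [show p * qi * p⁻¹ * (p * qj * p⁻¹) = p * qi * (p⁻¹ * p) * qj * p⁻¹ by
      simp only [mul_assoc], inv_mul_cancel₀ hp, mul_one, mul_assoc p]
  have h9 : p * qj * p⁻¹ * (p * qi * p⁻¹) = p * (qj * qi) * p⁻¹ := by
    rw [show p * qj * p⁻¹ * (p * qi * p⁻¹) = p * qj * (p⁻¹ * p) * qi * p⁻¹ by
      simp only [mul_assoc], inv_mul_cancel₀ hp, mul_one, mul_assoc p]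
  rw [h8, h9] at h7
  have h10 : qi * qj = qj * qi := mul_left_cancel₀ hp (mul_right_cancel₀ (inv_ne_zero hp) h7)
  rw [qji] at h10
  have h11 : ‖qi * qj‖ = 1 := by
    rw [norm_mul, norm_of_sq qi_sq, norm_of_sq qj_sq, mul_one]
  have h12 : qi * qj = 0 := by
    have h13 : (2 : ℝ) • (qi * qj) = 0 := by
      rw [two_smul]
      nth_rewrite 1 [h10]
      exact neg_add_cancel _
    rcases smul_eq_zero.1 h13 with h14 | h14
    · norm_num at h14
    · exact h14
  rw [h12, norm_zero] at h11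
  norm_num at h11

end Pool.Agent.N862.RI
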